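import Pool.Agent.Helper37.KDB.Extra

/-! Project KDB: exponential costs. -/

set_option autoImplicit false

namespace KDB.I.EE

open MeasureTheory KDB
open scoped ENNReal

/-- The weight with cost `x`. -/
noncomputable def E (x : ℝ) : ℝ≥0∞ := ENNReal.ofReal (Real.exp (-x))

theorem E_add (x y : ℝ) : E x * E y = E (x + y) := by
  rw [E, E, E, ← ENNReal.ofReal_mul (Real.exp_nonneg _), ← Real.exp_add, neg_add]

theorem E_anti {x y : ℝ} (h : x ≤ y) : E y ≤ E x :=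
  ENNReal.ofReal_le_ofReal (Real.exp_le_exp.2 (neg_le_neg h))

theorem E_zero : E 0 = 1 := by
  rw [E, neg_zero, Real.exp_zero, ENNReal.ofReal_one]

theorem inv_nat (N : ℕ) (hN : 0 < N) : ((N : ℝ≥0∞))⁻¹ = E (Real.log N) := by
  rw [E, Real.exp_neg, Real.exp_log (by exact_mod_cast hN),
    ENNReal.ofReal_inv_of_pos (by exact_mod_cast hN), ENNReal.ofReal_natCast]

theorem inv_nat_pow (N d : ℕ) (hN : 0 < N) : ((N : ℝ≥0∞) ^ d)⁻¹ = E (d * Real.log N) := by
  have h := inv_nat (N ^ d) (pow_pos hN d)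
  rw [Nat.cast_pow, Nat.cast_pow, Real.log_pow] at h
  exact h

theorem inv_two : (2 : ℝ≥0∞)⁻¹ = E (Real.log 2) := by
  have h := inv_nat 2 two_pos
  exact_mod_cast h

theorem gw_eq (k : ℕ) : gw k = E ((k + 1) * Real.log 2) := by
  have h := inv_nat_pow 2 (k + 1) two_pos
  rw [gw]
  push_cast at h
  exact h

theorem uw_eq {d : ℕ} (N : ℕ) (hN : 0 < N) (r : Fin d → ℤ) (hr : ∀ i, 0 ≤ r i ∧ r i < N) :
    uw N r = E (d * Real.log N) := by
  rw [uw, if_pos hr, inv_nat_pow N d hN]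

theorem uw_emd {d : ℕ} (N : ℕ) (hN : 0 < N) (a : Fin d → ℤ) :
    uw N (Par.emd N a) = E (d * Real.log N) := by
  refine uw_eq N hN _ fun i => ⟨?_, ?_⟩
  · exact Int.emod_nonneg _ (by exact_mod_cast hN.ne')
  · exact Int.emod_lt_of_pos _ (by exact_mod_cast hN)

theorem uw_zero {d : ℕ} (N : ℕ) (hN : 0 < N) :
    uw N (0 : Fin d → ℤ) = E (d * Real.log N) :=
  uw_eq N hN _ fun i => ⟨le_rfl, by
    change (0 : ℤ) < N
    exact_mod_cast hN⟩

theorem sw_eq (S k : ℕ) (h : k < S) : sw S k = E (Real.log S) := by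
  rw [sw, if_pos h, inv_nat S (by omega)]

theorem log_two_le : Real.log 2 ≤ 1 := by
  have := Real.log_two_lt_d9
  linarith

theorem log_N (c : ℕ) : Real.log ((64 * 2 ^ c : ℕ) : ℝ) = (6 + c) * Real.log 2 := by
  have h : ((64 * 2 ^ c : ℕ) : ℝ) = (2 : ℝ) ^ (6 + c) := by
    push_cast
    rw [pow_add]
    norm_num
  rw [h, Real.log_pow]
  push_cast
  ring

end KDB.I.EE
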