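import Pool.Agent.Helper37.KDB.Extra
import Pool.Agent.Helper66.KDB.EE

/-! Project KDB, the piece C1. -/

set_option autoImplicit false

namespace KDB.I.C1

open MeasureTheory KDB KDB.I.EE
open scoped ENNReal

variable (p : Par)

theorem ent_cost (hp : p.Ok) (om : ℕ → Nz p.d) (m g a e : ℕ) (hm : m < p.n) (hge : g ≤ e)
    (heg : e < g + p.tau m) :
    ENNReal.ofReal (Real.exp (-(p.ec om m e +
      (1 + 4 * p.d) * Par.ncl (p.nse om m a e / p.rho m)))) ≤
      (2 : ℝ≥0∞)⁻¹ * p.cEnt (p.ent om m g a e) := by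
  have hL : 0 < p.L := by have := hp.hL; omega
  have hell : 0 < p.ell := pow_pos hL _
  have htau : (0 : ℝ) < p.tau m := by
    have h1 := hp.hH
    have : 0 < p.tau m := Nat.mul_pos (by omega) (pow_pos hL _)
    exact_mod_cast this
  set ko := p.lv (om e) - 1 - m with hko
  set nc := Par.ncl (p.nse om m a e / p.rho m) with hnc
  set uu := if (om e).lab = 1 then ko + 1 else ko - p.b with huu
  have hN : 0 < 64 * 2 ^ nc := by positivity
  have hNu : 0 < 64 * 2 ^ nc * p.ell ^ uu := Nat.mul_pos hN (pow_pos hell _)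
  have hS : 0 < p.L * p.ell ^ (ko + 1) := Nat.mul_pos hL (pow_pos hell _)
  have hslot : ⌊((e : ℝ) - g) * (p.L * (p.ell : ℝ) ^ (ko + 1)) / p.tau m⌋₊ <
      p.L * p.ell ^ (ko + 1) := by
    have h0 : (0 : ℝ) ≤ (e : ℝ) - g := by
      have : (g : ℝ) ≤ e := by exact_mod_cast hge
      linarith
    rw [Nat.floor_lt (by positivity), div_lt_iff₀ htau]
    push_cast
    have h1 : (e : ℝ) - g < p.tau m := by
      have : (e : ℝ) < g + p.tau m := by exact_mod_cast heg
      linarith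
    have h2 : (0 : ℝ) < p.L * (p.ell : ℝ) ^ (ko + 1) := by
      have : (0 : ℝ) < p.ell := by exact_mod_cast hell
      have : (0 : ℝ) < p.L := by exact_mod_cast hL
      positivity
    nlinarith
  have hE : p.cEnt (p.ent om m g a e) = (2 : ℝ≥0∞)⁻¹ ^ 3 * E ((ko + 1) * Real.log 2) *
      E (Real.log ((p.L * p.ell ^ (ko + 1) : ℕ) : ℝ)) * E ((nc + 1) * Real.log 2) *
      E (p.d * Real.log ((64 * 2 ^ nc : ℕ) : ℝ)) * E (p.d * Real.log ((64 * 2 ^ nc : ℕ) : ℝ)) *
      E (p.d * Real.log ((64 * 2 ^ nc * p.ell ^ uu : ℕ) : ℝ)) *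
      E (p.d * Real.log ((64 * 2 ^ nc : ℕ) : ℝ)) := by
    rw [Par.cEnt, Par.ent]
    simp only [decide_eq_true_eq]
    rw [← hko, ← hnc, ← huu, gw_eq, gw_eq, sw_eq _ _ hslot, uw_emd _ hNu, uw_emd _ hN]
    by_cases h1 : (om e).lab = 1
    · simp only [h1, if_true]
      rw [uw_zero _ hN]
    · simp only [h1, if_false]
      rw [uw_emd _ hN, uw_emd _ hN]
  rw [hE, inv_two]
  change E _ ≤ _
  have h3 : E (Real.log 2) ^ 3 = E (3 * Real.log 2) := by
    rw [pow_succ, pow_two, E_add, E_add]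
    congr 1
    ring
  rw [h3]
  simp only [E_add]
  refine E_anti ?_
  have hell' : (0 : ℝ) < p.ell := by exact_mod_cast hell
  have hL' : (0 : ℝ) < p.L := by exact_mod_cast hL
  have l1 : Real.log ((p.L * p.ell ^ (ko + 1) : ℕ) : ℝ) =
      Real.log p.L + (ko + 1) * Real.log p.ell := by
    push_cast
    rw [Real.log_mul hL'.ne' (pow_pos hell' _).ne', Real.log_pow]
    push_cast
    ring
  have l2 : Real.log ((64 * 2 ^ nc * p.ell ^ uu : ℕ) : ℝ) =
      (6 + nc) * Real.log 2 + uu * Real.log p.ell := by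
    rw [Nat.cast_mul, Real.log_mul (by exact_mod_cast hN.ne') (by
      push_cast
      exact (pow_pos hell' _).ne'), log_N]
    push_cast
    rw [Real.log_pow]
  rw [l1, l2, log_N, Par.ec]
  simp only [← hko, ← huu]
  have hl2 := log_two_le
  have hl20 : 0 ≤ Real.log 2 := Real.log_nonneg one_le_two
  have hd : (0 : ℝ) ≤ p.d := Nat.cast_nonneg _
  have hk0 : (0 : ℝ) ≤ ko := Nat.cast_nonneg _
  have hn0 : (0 : ℝ) ≤ nc := Nat.cast_nonneg _
  have m1 : (ko : ℝ) * Real.log 2 ≤ ko := mul_le_of_le_one_right hk0 hl2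
  have m2 : (nc : ℝ) * Real.log 2 ≤ nc := mul_le_of_le_one_right hn0 hl2
  have m3 : (p.d : ℝ) * ((6 + nc) * Real.log 2) ≤ p.d * (6 + nc) := by
    refine mul_le_mul_of_nonneg_left ?_ hd
    exact mul_le_of_le_one_right (by positivity) hl2
  nlinarith

end KDB.I.C1
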