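import Pool.Agent.Helper37.KDB.Extra
import Pool.Agent.Helper37.KDB.St.D1
import Pool.Agent.Helper37.KDB.St.C1
import Pool.Agent.Helper66.KDB.EE

/-! Project KDB, the piece C2. -/

set_option autoImplicit false

namespace KDB.I.C2

open MeasureTheory KDB KDB.I.EE
open scoped ENNReal

variable (p : Par)

theorem sz_nonneg (z : Nz p.d) : 0 ≤ p.sz z := by
  rw [Par.sz]
  split_ifs
  · exact le_rfl
  · exact norm_nonneg _
  · rw [Par.rho]
    positivity

theorem nse_nonneg (om : ℕ → Nz p.d) (m a c : ℕ) : 0 ≤ p.nse om m a c := by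
  refine Finset.sum_nonneg fun j _ => ?_
  split_ifs
  · exact sz_nonneg p _
  · exact le_rfl

theorem nse_split (om : ℕ → Nz p.d) (m a e c : ℕ) (h1 : a ≤ e) (h2 : e < c) :
    p.nse om m a e + p.nse om m (e + 1) c ≤ p.nse om m a c := by
  rw [Par.nse, Par.nse, Par.nse, ← Finset.sum_Ico_consecutive _ h1 h2.le,
    Finset.sum_eq_sum_Ico_succ_bot h2]
  have h : 0 ≤ if p.lv (om e) ≤ m then p.sz (om e) else 0 := by
    split_ifs
    · exact sz_nonneg p _
    · exact le_rfl
  linarith

theorem sum_range' (f : ℕ → ℝ) (q : ℕ → Prop) [DecidablePred q] (n a : ℕ) :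
    (((List.range' a n).filter fun j => decide (q j)).map f).sum =
      ∑ j ∈ Finset.Ico a (a + n), if q j then f j else 0 := by
  induction n generalizing a with
  | zero => simp
  | succ n ih =>
    rw [List.range'_succ, Finset.sum_eq_sum_Ico_succ_bot (by omega)]
    have h := ih (a + 1)
    rw [show a + 1 + n = a + (n + 1) by ring] at h
    rw [← h]
    by_cases hq : q a
    · rw [List.filter_cons_of_pos (by simpa using hq), List.map_cons, List.sum_cons, if_pos hq]
    · rw [List.filter_cons_of_neg (by simpa using hq), if_neg hq, zero_add]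

theorem list_cost (hp : p.Ok) (om : ℕ → Nz p.d) (m g g' : ℕ) (hm : m < p.n)
    (hg' : g' ≤ g + p.tau m) (l : List ℕ) (a : ℕ) (hga : g ≤ a) (hs : l.Pairwise (· < ·))
    (hl : ∀ e ∈ l, a ≤ e ∧ e < g') :
    E (Real.log 2 + (l.map fun j => p.ec om m j + (1 + 4 * p.d)).sum +
      (1 + 4 * p.d) * (p.nse om m a g' / p.rho m)) ≤
      p.cList (p.ents om m g a l) *
        E ((1 + 4 * p.d) * (p.nse om m (Par.lastSync a l) g' / p.rho m)) := by
  have hrho : 0 < p.rho m := by
    have hL : 0 < p.L := by have := hp.hL; omega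
    have hell : 0 < p.ell := pow_pos hL _
    rw [Par.rho]
    positivity
  induction l generalizing a with
  | nil =>
    rw [Par.ents, Par.cList, Par.lastSync, inv_two, E_add]
    refine E_anti ?_
    simp
  | cons e l ih =>
    rw [Par.ents, Par.cList, Par.lastSync]
    have he := hl e List.mem_cons_self
    rw [List.pairwise_cons] at hs
    have ih' := ih (e + 1) (by omega) hs.2 (fun x hx =>
      ⟨hs.1 x hx, (hl x (List.mem_cons_of_mem _ hx)).2⟩)
    have hc := ent_cost p hp om m g a e hm (by omega) (by omega)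
    have hn := (ncl_spec (p.nse om m a e / p.rho m)
      (div_nonneg (nse_nonneg p om m a e) hrho.le)).2
    have hsp := nse_split p om m a e g' he.1 he.2
    have hsp' : p.nse om m a e / p.rho m + p.nse om m (e + 1) g' / p.rho m ≤
        p.nse om m a g' / p.rho m := by
      rw [← add_div]
      exact div_le_div_of_nonneg_right hsp hrho.le
    refine le_trans ?_ (le_trans (mul_le_mul' hc ih') (le_of_eq ?_))
    · change _ ≤ E _ * _
      rw [E_add]
      refine E_anti ?_
      rw [List.map_cons, List.sum_cons]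
      have h4 : (0 : ℝ) ≤ 1 + 4 * p.d := by positivity
      have h5 := mul_le_mul_of_nonneg_left hn h4
      have h6 := mul_le_mul_of_nonneg_left hsp' h4
      nlinarith
    · rw [← mul_assoc]

theorem lsteps_sorted (om : ℕ → Nz p.d) (m g g' : ℕ) :
    (p.lsteps om m g g').Pairwise (· < ·) := by
  rw [Par.lsteps]
  exact List.Pairwise.filter _ List.pairwise_lt_range'

theorem lsteps_mem (om : ℕ → Nz p.d) (m g g' : ℕ) (hgg : g ≤ g') :
    ∀ e ∈ p.lsteps om m g g', g ≤ e ∧ e < g' := by
  intro e he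
  rw [Par.lsteps] at he
  have h := List.mem_range'_1.1 (List.mem_of_mem_filter he)
  omega

theorem blk_cost (hp : p.Ok) (om : ℕ → Nz p.d) (m g g' : ℕ) (hm : m < p.n) (hgg : g ≤ g')
    (hg' : g' ≤ g + p.tau m) :
    ENNReal.ofReal (Real.exp (-((∑ j ∈ Finset.Ico g g',
        if m < p.lv (om j) then p.ec om m j + (1 + 4 * p.d) else 0) + (2 + 12 * p.d) +
      (1 + 4 * p.d) * (1 + p.nse om m g g' / p.rho m)))) ≤ p.cB (p.blk om m g g') := by
  change E _ ≤ _
  have hrho : 0 < p.rho m := by
    have hL : 0 < p.L := by have := hp.hL; omega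
    have hell : 0 < p.ell := pow_pos hL _
    rw [Par.rho]
    positivity
  set nc := Par.ncl (p.nse om m (Par.lastSync g (p.lsteps om m g g')) g' / p.rho m) with hnc
  have hN : 0 < 64 * 2 ^ nc := by positivity
  have h1 : p.cB (p.blk om m g g') = p.cList (p.ents om m g g (p.lsteps om m g g')) *
      E ((nc + 1) * Real.log 2) * E (p.d * Real.log ((64 * 2 ^ nc : ℕ) : ℝ)) *
      E (p.d * Real.log ((64 * 2 ^ nc : ℕ) : ℝ)) := by
    rw [Par.cB, Par.blk]
    simp only
    rw [← hnc, gw_eq, uw_emd _ hN, uw_emd _ hN]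
  have h2 := list_cost p hp om m g g' hm hg' (p.lsteps om m g g') g le_rfl
    (lsteps_sorted p om m g g') (lsteps_mem p om m g g' hgg)
  have h3 : ((p.lsteps om m g g').map fun j => p.ec om m j + (1 + 4 * p.d)).sum =
      ∑ j ∈ Finset.Ico g g', if m < p.lv (om j) then p.ec om m j + (1 + 4 * p.d) else 0 := by
    have := sum_range' (fun j => p.ec om m j + (1 + 4 * p.d)) (fun j => m < p.lv (om j))
      (g' - g) g
    rw [show g + (g' - g) = g' by omega] at this
    exact this
  have hn := (ncl_spec (p.nse om m (Par.lastSync g (p.lsteps om m g g')) g' / p.rho m)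
      (div_nonneg (nse_nonneg p om m _ _) hrho.le)).2
  rw [← hnc] at hn
  set x := p.nse om m (Par.lastSync g (p.lsteps om m g g')) g' / p.rho m with hx
  rw [h1, mul_assoc, mul_assoc, E_add, E_add, log_N]
  rw [h3] at h2
  have h4 : (0 : ℝ) ≤ 1 + 4 * p.d := by positivity
  have hx0 : 0 ≤ x := div_nonneg (nse_nonneg p om m _ _) hrho.le
  have hEpos : E ((1 + 4 * p.d) * x) ≠ 0 := by
    rw [E, Ne, ENNReal.ofReal_eq_zero, not_le]
    exact Real.exp_pos _
  have hEtop : E ((1 + 4 * p.d) * x) ≠ ⊤ := ENNReal.ofReal_ne_top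
  have hl2 := log_two_le
  have hl20 : 0 ≤ Real.log 2 := Real.log_nonneg one_le_two
  have hd : (0 : ℝ) ≤ p.d := Nat.cast_nonneg _
  have hn0 : (0 : ℝ) ≤ nc := Nat.cast_nonneg _
  refine (ENNReal.mul_le_mul_iff_left hEpos hEtop).1 ?_
  refine le_trans ?_ (le_trans (mul_le_mul_left h2 (E ((nc + 1) * Real.log 2 +
    (p.d * ((6 + nc) * Real.log 2) + p.d * ((6 + nc) * Real.log 2))))) (le_of_eq ?_))
  · rw [E_add, E_add]
    refine E_anti ?_
    have m2 : (nc : ℝ) * Real.log 2 ≤ nc := mul_le_of_le_one_right hn0 hl2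
    have m3 : (p.d : ℝ) * ((6 + nc) * Real.log 2) ≤ p.d * (6 + nc) := by
      refine mul_le_mul_of_nonneg_left ?_ hd
      exact mul_le_of_le_one_right (by positivity) hl2
    have m4 : (p.d : ℝ) * nc ≤ p.d * (1 + x) := mul_le_mul_of_nonneg_left hn hd
    nlinarith
  · ring

end KDB.I.C2
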