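import Pool.Agent.Helper37.KDB.Extra
import Pool.Agent.Helper37.KDB.St.D1
import Pool.Agent.Helper37.KDB.St.D17

/-! Project KDB, the piece C4. -/

set_option autoImplicit false

namespace KDB.I.C4

open MeasureTheory KDB
open scoped ENNReal

variable (p : Par)

/-- the level that remembers a step of stage `m` is at most `m` -/
theorem mst_le (hp : p.Ok) (t : ℕ) (ht : t ≤ p.tau p.n) (c : ℕ → ℕ) (hc : ∀ i, c i ≤ 49)
    (m j : ℕ) (hm : m < p.n) (hj : p.Sx t c m ≤ j) (hj' : j < p.Ex t c m) :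
    p.mst t j ≤ m := by
  obtain ⟨-, -, -, -, h5⟩ := stage_spec p hp t ht c hc m hm
  have h : t - j ≤ MM * p.tau (m + 1) := by omega
  rw [Par.mst, dif_pos ⟨m, h⟩]
  exact Nat.find_min' _ h

theorem gp_zero (hp : p.Ok) (t : ℕ) (ht : t ≤ p.tau p.n) (c : ℕ → ℕ) (hc : ∀ i, c i ≤ 49)
    (i : ℕ) (hi : i < p.n) : p.gp t c i 0 = p.Sx t c i := by
  obtain ⟨h1, -⟩ := stage_spec p hp t ht c hc i hi
  rw [Par.gp, zero_mul, add_zero, min_eq_left h1]

theorem gp_last (hp : p.Ok) (t : ℕ) (ht : t ≤ p.tau p.n) (c : ℕ → ℕ) (hc : ∀ i, c i ≤ 49)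
    (i : ℕ) (hi : i < p.n) : p.gp t c i (MM * p.L) = p.Ex t c i := by
  obtain ⟨-, h2, -⟩ := stage_spec p hp t ht c hc i hi
  rw [Par.gp, min_eq_right h2]

theorem gp_mono (t : ℕ) (c : ℕ → ℕ) (i k : ℕ) : p.gp t c i k ≤ p.gp t c i (k + 1) := by
  rw [Par.gp, Par.gp]
  refine min_le_min_right _ (Nat.add_le_add_left (Nat.mul_le_mul_right _ (Nat.le_succ k)) _)

theorem gp_zero_le (t : ℕ) (c : ℕ → ℕ) (i k : ℕ) : p.gp t c i 0 ≤ p.gp t c i k := by
  induction k with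
  | zero => exact le_rfl
  | succ k ih => exact ih.trans (gp_mono p t c i k)

theorem sum_gp (t : ℕ) (c : ℕ → ℕ) (i : ℕ) (f : ℕ → ℝ) (K : ℕ) :
    ∑ k ∈ Finset.range K, ∑ j ∈ Finset.Ico (p.gp t c i k) (p.gp t c i (k + 1)), f j =
      ∑ j ∈ Finset.Ico (p.gp t c i 0) (p.gp t c i K), f j := by
  induction K with
  | zero => simp
  | succ K ih =>
    rw [Finset.sum_range_succ, ih, Finset.sum_Ico_consecutive _ (gp_zero_le p t c i K)
      (gp_mono p t c i K)]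

/-- every step is in exactly one stage: sums over stages are sums over steps -/
theorem stage_sum_le (hp : p.Ok) (t : ℕ) (ht : t ≤ p.tau p.n) (c : ℕ → ℕ) (hc : ∀ i, c i ≤ 49)
    (f : ℕ → ℕ → ℝ) (hf : ∀ m j, 0 ≤ f m j) :
    ∑ i ∈ Finset.range p.n, ∑ k ∈ Finset.range (MM * p.L),
        ∑ j ∈ Finset.Ico (p.gp t c i k) (p.gp t c i (k + 1)), f i j ≤
      ∑ j ∈ Finset.range t, ∑ i ∈ Finset.range p.n,
        if p.Sx t c i ≤ j ∧ j < p.Ex t c i then f i j else 0 := by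
  rw [Finset.sum_comm (s := Finset.range t)]
  refine Finset.sum_le_sum fun i hi => ?_
  have hi' := Finset.mem_range.1 hi
  obtain ⟨-, -, h3, -⟩ := stage_spec p hp t ht c hc i hi'
  rw [sum_gp, gp_zero p hp t ht c hc i hi', gp_last p hp t ht c hc i hi', ← Finset.sum_filter]
  refine Finset.sum_le_sum_of_subset_of_nonneg ?_ fun j _ _ => hf i j
  intro j hj
  rw [Finset.mem_Ico] at hj
  rw [Finset.mem_filter, Finset.mem_range]
  exact ⟨by omega, hj⟩

theorem Sx_anti (hp : p.Ok) (t : ℕ) (ht : t ≤ p.tau p.n) (c : ℕ → ℕ) (hc : ∀ i, c i ≤ 49)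
    (i k : ℕ) (hk : i + k < p.n) : p.Sx t c (i + k) ≤ p.Sx t c i := by
  induction k with
  | zero => exact le_rfl
  | succ k ih =>
    obtain ⟨h1, -⟩ := stage_spec p hp t ht c hc (i + (k + 1)) hk
    rw [Par.Ex, if_neg (by omega), show i + (k + 1) - 1 = i + k by omega] at h1
    exact h1.trans (ih (by omega))

theorem Ex_le_Sx (hp : p.Ok) (t : ℕ) (ht : t ≤ p.tau p.n) (c : ℕ → ℕ) (hc : ∀ i, c i ≤ 49)
    (i i' : ℕ) (h : i < i') (hi' : i' < p.n) : p.Ex t c i' ≤ p.Sx t c i := by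
  rw [Par.Ex, if_neg (by omega)]
  have h1 := Sx_anti p hp t ht c hc i (i' - 1 - i) (by omega)
  rwa [show i + (i' - 1 - i) = i' - 1 by omega] at h1

/-- at most one stage contains a step -/
theorem stage_unique (hp : p.Ok) (t : ℕ) (ht : t ≤ p.tau p.n) (c : ℕ → ℕ)
    (hc : ∀ i, c i ≤ 49) (i i' j : ℕ) (hi : i < p.n) (hi' : i' < p.n)
    (h1 : p.Sx t c i ≤ j) (h2 : j < p.Ex t c i) (h1' : p.Sx t c i' ≤ j)
    (h2' : j < p.Ex t c i') : i = i' := by
  rcases lt_trichotomy i i' with h | h | h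
  · have := Ex_le_Sx p hp t ht c hc i i' h hi'
    omega
  · exact h
  · have := Ex_le_Sx p hp t ht c hc i' i h hi
    omega

end KDB.I.C4
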