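import Pool.Agent.Helper37.KDB.Extra
import Pool.Agent.Helper37.KDB.St.D1
import Pool.Agent.Helper37.KDB.St.D17

/-! Project KDB, the piece L1. -/

set_option autoImplicit false

namespace KDB.I.L1

open MeasureTheory KDB
open scoped ENNReal

variable (p : Par)

/-- steps of an own window -/
theorem own_step (hp : p.Ok) (i T j : ℕ)
    (hT : T % p.tau (i + 1) = p.L / 2 * p.tau i) (hT1 : p.tau i ≤ T)
    (hj : j ∈ Finset.Ico (T - p.tau i) (T + p.W i)) :
    j / p.tau (i + 1) = T / p.tau (i + 1) ∧ p.tau i ≤ j % p.tau (i + 1) := by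
  have hL := hp.hL
  have hL4 := hp.hL4
  have hW : p.W i ≤ p.tau i := by
    rw [← W_ell]
    exact Nat.le_mul_of_pos_right _ (pow_pos (by omega) _)
  have ht := tau_succ p i
  have hH := hp.hH
  have htau : 0 < p.tau i := Nat.mul_pos (by omega) (pow_pos (by omega) _)
  rw [Finset.mem_Ico] at hj
  obtain ⟨l, hl⟩ : 2 ∣ p.L := (by norm_num : 2 ∣ 4).trans hL4
  have hl2 : p.L / 2 = l := by omega
  rw [hl2] at hT
  have hTd := Nat.div_add_mod T (p.tau (i + 1))
  rw [hT] at hTd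
  have hlt : l * p.tau i = (l - 2) * p.tau i + 2 * p.tau i := by
    rw [← add_mul]
    congr 1
    omega
  have hLt : p.tau (i + 1) = l * p.tau i + l * p.tau i := by
    rw [ht, hl]
    ring
  set τ := p.tau (i + 1)
  obtain ⟨s, hs⟩ : ∃ s, j = T - p.tau i + s := ⟨j - (T - p.tau i), by omega⟩
  set c := T / τ
  have hj2 : j = τ * c + ((l - 2) * p.tau i + p.tau i + s) := by omega
  have hlt2 : (l - 2) * p.tau i + p.tau i + s < τ := by omega
  constructor
  · rw [hj2, Nat.mul_add_div (by omega), Nat.div_eq_of_lt hlt2, add_zero]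
  · rw [hj2, Nat.mul_add_mod, Nat.mod_eq_of_lt hlt2]
    omega

theorem tau_add (i m : ℕ) : p.tau (i + m) = p.L ^ m * p.tau i := by
  rw [Par.tau, Par.tau]
  ring

/-- rings of intermediate levels do not hit own windows -/
theorem no_mid_ring (hp : p.Ok) (i k T j : ℕ) (hik : i < k) (hkb : k < i + p.b)
    (hT : T % p.tau (i + 1) = p.L / 2 * p.tau i) (hT1 : p.tau i ≤ T)
    (hj : j ∈ Finset.Ico (T - p.tau i) (T + p.W i)) : ¬ p.inA k j ∧ ¬ p.inB k j := by
  obtain ⟨-, h2⟩ := own_step p hp i T j hT hT1 hj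
  have hL := hp.hL
  have hWk : p.W k ≤ p.tau i := by
    rw [Par.W, Par.tau]
    refine Nat.mul_le_mul_left _ (Nat.pow_le_pow_right (by omega) ?_)
    rw [Par.b] at hkb
    omega
  have ht := tau_succ p i
  have hH := hp.hH
  have htau : 0 < p.tau i := Nat.mul_pos (by omega) (pow_pos (by omega) _)
  have hle : p.tau i ≤ p.tau (i + 1) := by
    rw [ht]
    exact Nat.le_mul_of_pos_left _ (by omega)
  obtain ⟨m, rfl⟩ : ∃ m, k = i + 1 + m := ⟨k - (i + 1), by omega⟩
  have hk1 : p.tau (i + 1 + m) = p.L ^ m * p.tau (i + 1) := tau_add p (i + 1) m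
  have hk2 : p.tau (i + 1 + m + 1) = p.L ^ (m + 1) * p.tau (i + 1) := tau_add p (i + 1) (m + 1)
  have key : ∀ c : ℕ, ¬ (c * p.tau (i + 1 + m) ≤ p.ph (i + 1 + m) j ∧
      p.ph (i + 1 + m) j < c * p.tau (i + 1 + m) + p.W (i + 1 + m)) := by
    rintro c ⟨h3, h4⟩
    rw [Par.ph, hk2, hk1] at h3 h4
    set τ := p.tau (i + 1)
    have hjd := Nat.div_add_mod j (p.L ^ (m + 1) * τ)
    obtain ⟨r, hr⟩ : ∃ r, j % (p.L ^ (m + 1) * τ) = c * (p.L ^ m * τ) + r :=
      ⟨j % (p.L ^ (m + 1) * τ) - c * (p.L ^ m * τ), by omega⟩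
    rw [hr] at hjd h4
    have hrlt : r < p.tau i := by omega
    have hj3 : j = τ * (p.L ^ (m + 1) * (j / (p.L ^ (m + 1) * τ)) + c * p.L ^ m) + r := by
      calc j = p.L ^ (m + 1) * τ * (j / (p.L ^ (m + 1) * τ)) + (c * (p.L ^ m * τ) + r) := hjd.symm
        _ = _ := by ring
    rw [hj3, Nat.mul_add_mod, Nat.mod_eq_of_lt (by omega)] at h2
    omega
  exact ⟨key _, key _⟩

theorem cand_eq (t i a : ℕ) (ha : 1 ≤ a) :
    p.cand t i a = p.cand t i 1 + (a - 1) * p.tau (i + 1) := by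
  simp only [Par.cand]
  simp

/-- rings of level `i + b` hit at most one of the candidate windows -/
theorem one_b_ring (hp : p.Ok) (t i a a' j j' : ℕ) (ht : MM * p.tau (i + 1) ≤ t)
    (ha : 1 ≤ a ∧ a ≤ 49) (ha' : 1 ≤ a' ∧ a' ≤ 49)
    (hj : j ∈ Finset.Ico (p.cand t i a - p.tau i) (p.cand t i a + p.W i))
    (hj' : j' ∈ Finset.Ico (p.cand t i a' - p.tau i) (p.cand t i a' + p.W i))
    (h1 : p.inA (i + p.b) j ∨ p.inB (i + p.b) j)
    (h2 : p.inA (i + p.b) j' ∨ p.inB (i + p.b) j') : a = a' := by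
  have hL := hp.hL
  have hH := hp.hH
  have htau : 0 < p.tau (i + 1) := Nat.mul_pos (by omega) (pow_pos (by omega) _)
  obtain ⟨e1, e2, -, -⟩ := cand_spec p hp t i a ht ha.1 ha.2
  obtain ⟨e1', e2', -, -⟩ := cand_spec p hp t i a' ht ha'.1 ha'.2
  have d1 := (own_step p hp i _ j e1 (by omega) hj).1
  have d1' := (own_step p hp i _ j' e1' (by omega) hj').1
  rw [cand_eq p t i a ha.1, Nat.add_mul_div_right _ _ htau] at d1
  rw [cand_eq p t i a' ha'.1, Nat.add_mul_div_right _ _ htau] at d1'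
  have hk1 : p.tau (i + p.b) = p.L ^ p.q * p.tau (i + 1) := by
    rw [Par.b, show i + (p.q + 1) = i + 1 + p.q by ring]
    exact tau_add p (i + 1) p.q
  have hk2 : p.tau (i + p.b + 1) = p.L ^ (p.q + 1) * p.tau (i + 1) := by
    rw [Par.b, show i + (p.q + 1) + 1 = i + 1 + (p.q + 1) by ring]
    exact tau_add p (i + 1) (p.q + 1)
  have hWb : p.W (i + p.b) = p.tau (i + 1) := W_b p i
  have key : ∀ j, p.inA (i + p.b) j ∨ p.inB (i + p.b) j → p.L ^ p.q ∣ j / p.tau (i + 1) := by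
    intro j h
    obtain ⟨c, h3, h4⟩ : ∃ c, c * p.tau (i + p.b) ≤ p.ph (i + p.b) j ∧
        p.ph (i + p.b) j < c * p.tau (i + p.b) + p.W (i + p.b) := by
      rcases h with h | h
      · exact ⟨_, h⟩
      · exact ⟨_, h⟩
    rw [Par.ph, hk2, hk1] at h3 h4
    rw [hWb] at h4
    set τ := p.tau (i + 1)
    have hjd := Nat.div_add_mod j (p.L ^ (p.q + 1) * τ)
    obtain ⟨r, hr⟩ : ∃ r, j % (p.L ^ (p.q + 1) * τ) = c * (p.L ^ p.q * τ) + r :=
      ⟨j % (p.L ^ (p.q + 1) * τ) - c * (p.L ^ p.q * τ), by omega⟩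
    rw [hr] at hjd h4
    have hrlt : r < τ := by omega
    have hj3 : j = τ * (p.L ^ p.q * (p.L * (j / (p.L ^ (p.q + 1) * τ)) + c)) + r := by
      calc j = p.L ^ (p.q + 1) * τ * (j / (p.L ^ (p.q + 1) * τ)) + (c * (p.L ^ p.q * τ) + r) :=
            hjd.symm
        _ = _ := by ring
    rw [hj3, Nat.mul_add_div htau, Nat.div_eq_of_lt hrlt, add_zero]
    exact dvd_mul_right _ _
  have k1 := key j h1
  have k2 := key j' h2
  rw [d1] at k1
  rw [d1'] at k2
  have hLq : 1000 ≤ p.L ^ p.q := hL.trans (Nat.le_self_pow (by have := hp.hq; omega) _)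
  rcases le_total a a' with h | h
  · have h5 := (Nat.dvd_sub k2 k1)
    have h6 : p.cand t i 1 / p.tau (i + 1) + (a' - 1) - (p.cand t i 1 / p.tau (i + 1) + (a - 1)) =
        a' - a := by omega
    rw [h6] at h5
    rcases Nat.eq_zero_or_pos (a' - a) with h7 | h7
    · omega
    · have := Nat.le_of_dvd h7 h5
      omega
  · have h5 := (Nat.dvd_sub k1 k2)
    have h6 : p.cand t i 1 / p.tau (i + 1) + (a - 1) - (p.cand t i 1 / p.tau (i + 1) + (a' - 1)) =
        a - a' := by omega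
    rw [h6] at h5
    rcases Nat.eq_zero_or_pos (a - a') with h7 | h7
    · omega
    · have := Nat.le_of_dvd h7 h5
      omega

end KDB.I.L1
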