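import Pool.Agent.Helper37.KDB.Extra
import Pool.Agent.Helper37.KDB.St.D1
import Pool.Agent.Helper37.KDB.St.D17
import Pool.Agent.Helper37.KDB.St.L1
import Pool.Agent.Helper37.KDB.St.L2

/-! Project KDB, the piece L3. -/

set_option autoImplicit false

namespace KDB.I.L3

open MeasureTheory KDB
open scoped ENNReal

variable (p : Par)

/-- the own window of a candidate -/
def Fw (t i a : ℕ) : Finset ℕ := Finset.Ico (p.cand t i a - p.tau i) (p.cand t i a + p.W i)

theorem sum_Fw (hp : p.Ok) (t i : ℕ) (ht : MM * p.tau (i + 1) ≤ t) (φ : ℕ → ℝ)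
    (hφ : ∀ j, 0 ≤ φ j) :
    ∑ a ∈ Finset.Icc 1 49, ∑ j ∈ Fw p t i a, φ j ≤
      ∑ j ∈ Finset.range t, if p.mst t j ≤ i then φ j else 0 := by
  rw [← Finset.sum_biUnion, ← Finset.sum_filter]
  · refine Finset.sum_le_sum_of_subset_of_nonneg ?_ fun j _ _ => hφ j
    intro j hj
    rw [Finset.mem_biUnion] at hj
    obtain ⟨a, ha, hj⟩ := hj
    rw [Finset.mem_Icc] at ha
    obtain ⟨-, h1, h2⟩ := cand_disj p hp t i a a j ht ha ha hj hj
    rw [Finset.mem_filter, Finset.mem_range]
    exact ⟨h1, h2⟩
  · intro a ha a' ha' hne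
    rw [Function.onFun, Finset.disjoint_left]
    intro j hj hj'
    rw [Finset.coe_Icc] at ha ha'
    exact hne (cand_disj p hp t i a a' j ht ha ha' hj hj').1

/-- count of a lost level -/
theorem lost_level (hp : p.Ok) (om : ℕ → Nz p.d) (hv : ∀ j, p.Valid j (om j)) (t i : ℕ)
    (hi : i < p.n) (ht : MM * p.tau (i + 1) ≤ t) (hl : p.cho om t i = 0) :
    (48 : ℝ) ≤ ((Finset.range t).filter fun j => p.mst t j ≤ i ∧
        ((om j).lab = 1 ∧ i < p.lv (om j) ∨ 2 ≤ (om j).lab ∧ i + p.b < p.lv (om j) - 1)).card +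
      (∑ a ∈ Finset.Icc 1 49, ((open Classical in
        (if ∃ j ∈ Finset.Ico (p.cand t i a - p.tau i) (p.cand t i a - p.tau i + p.W i),
          (om j).lab = i + 2 ∧ (om j).sb = true then 0 else 1) +
        (if ∃ j ∈ Finset.Ico (p.cand t i a) (p.cand t i a + p.W i),
          (om j).lab = i + 2 ∧ (om j).sb = true then 0 else 1) : ℕ) : ℝ)) +
      (∑ j ∈ Finset.range t, if p.mst t j ≤ i ∧ p.lv (om j) ≤ i then
        p.sz (om j) / p.rho i else 0) / p.R +
      ((Finset.range t).filter fun j => p.mst t j ≤ i ∧ (om j).lab = i + 2).card / p.q := by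
  classical
  have hR : 0 < p.R := lt_of_lt_of_le one_pos hp.hR
  have hq : (0 : ℝ) < p.q := by
    have := hp.hq
    exact_mod_cast (by omega : 0 < p.q)
  have hL := hp.hL
  have hrho : 0 < p.rho i := by
    have hell : 0 < p.ell := pow_pos (by omega) _
    rw [Par.rho]
    positivity
  let φ1 : ℕ → ℝ := fun j =>
    if (om j).lab = 1 ∧ i < p.lv (om j) ∨ 2 ≤ (om j).lab ∧ i + p.b < p.lv (om j) - 1 then 1 else 0
  let φ2 : ℕ → ℝ := fun j => if p.lv (om j) ≤ i then p.sz (om j) / p.rho i else 0
  let φ3 : ℕ → ℝ := fun j => if (om j).lab = i + 2 then 1 else 0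
  let X : ℕ → ℝ := fun a =>
    if ∃ j ∈ Fw p t i a, 2 ≤ (om j).lab ∧ (om j).lab - 2 = i + p.b then 1 else 0
  have h1 : ∀ j, 0 ≤ φ1 j := fun j => by
    simp only [φ1]
    split_ifs <;> norm_num
  have hsz : ∀ z : Nz p.d, 0 ≤ p.sz z := by
    intro z
    rw [Par.sz]
    split_ifs
    · exact le_rfl
    · exact norm_nonneg _
    · rw [Par.rho]
      positivity
  have h2 : ∀ j, 0 ≤ φ2 j := fun j => by
    simp only [φ2]
    split_ifs
    · exact div_nonneg (hsz _) hrho.le
    · exact le_rfl
  have h3 : ∀ j, 0 ≤ φ3 j := fun j => by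
    simp only [φ3]
    split_ifs <;> norm_num
  have hX0 : ∀ a, 0 ≤ X a := fun j => by
    simp only [X]
    split_ifs <;> norm_num
  have hX : ∑ a ∈ Finset.Icc 1 49, X a ≤ 1 := by
    by_cases hex : ∃ a ∈ Finset.Icc 1 49, ∃ j ∈ Fw p t i a, 2 ≤ (om j).lab ∧
        (om j).lab - 2 = i + p.b
    · obtain ⟨a, ha, j, hj, hj1, hj2⟩ := hex
      rw [Finset.sum_eq_single a]
      · simp only [X]
        split_ifs <;> norm_num
      · intro a' ha' hne
        simp only [X]
        rw [if_neg]
        rintro ⟨j', hj', hj1', hj2'⟩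
        refine hne ?_
        rw [Finset.mem_Icc] at ha ha'
        have v1 := (hv j).2.1 hj1
        have v2 := (hv j').2.1 hj1'
        rw [hj2] at v1
        rw [hj2'] at v2
        exact one_b_ring p hp t i a' a j' j ht ha' ha hj' hj v2 v1
      · intro h
        exact absurd ha h
    · rw [Finset.sum_eq_zero]
      · exact zero_le_one
      · intro a ha
        simp only [X]
        rw [if_neg]
        intro h
        exact hex ⟨a, ha, h⟩
  have key : ∀ a ∈ Finset.Icc 1 49, (1 : ℝ) ≤ ∑ j ∈ Fw p t i a, φ1 j + ((open Classical in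
        (if ∃ j ∈ Finset.Ico (p.cand t i a - p.tau i) (p.cand t i a - p.tau i + p.W i),
          (om j).lab = i + 2 ∧ (om j).sb = true then 0 else 1) +
        (if ∃ j ∈ Finset.Ico (p.cand t i a) (p.cand t i a + p.W i),
          (om j).lab = i + 2 ∧ (om j).sb = true then 0 else 1) : ℕ) : ℝ) +
        (∑ j ∈ Fw p t i a, φ2 j) / p.R + (∑ j ∈ Fw p t i a, φ3 j) / p.q + X a := by
    intro a ha
    have ha' := Finset.mem_Icc.1 ha
    obtain ⟨e1, e2, e3, -⟩ := cand_spec p hp t i a ht ha'.1 ha'.2
    have s1 : 0 ≤ ∑ j ∈ Fw p t i a, φ1 j := Finset.sum_nonneg fun j _ => h1 j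
    have s2 : 0 ≤ (∑ j ∈ Fw p t i a, φ2 j) / p.R :=
      div_nonneg (Finset.sum_nonneg fun j _ => h2 j) hR.le
    have s3 : 0 ≤ (∑ j ∈ Fw p t i a, φ3 j) / p.q :=
      div_nonneg (Finset.sum_nonneg fun j _ => h3 j) hq.le
    have s4 := hX0 a
    have hng : ¬ p.Good om i (p.cand t i a) := by
      intro hg
      have hh : ∃ a, 1 ≤ a ∧ a ≤ 49 ∧ p.Good om i (p.cand t i a) := ⟨a, ha'.1, ha'.2, hg⟩
      rw [Par.cho, dif_pos hh] at hl
      have := (Nat.find_spec hh).1
      omega
    by_cases g4 : ∃ j ∈ Finset.Ico (p.cand t i a - p.tau i) (p.cand t i a - p.tau i + p.W i),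
          (om j).lab = i + 2 ∧ (om j).sb = true
    swap
    · rw [if_neg g4]
      push_cast
      have : (0 : ℝ) ≤ (if ∃ j ∈ Finset.Ico (p.cand t i a) (p.cand t i a + p.W i),
          (om j).lab = i + 2 ∧ (om j).sb = true then (0 : ℝ) else 1) := by
        split_ifs <;> norm_num
      linarith
    by_cases g5 : ∃ j ∈ Finset.Ico (p.cand t i a) (p.cand t i a + p.W i),
          (om j).lab = i + 2 ∧ (om j).sb = true
    swap
    · rw [if_neg g5]
      push_cast
      have : (0 : ℝ) ≤ (if ∃ j ∈ Finset.Ico (p.cand t i a - p.tau i)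
          (p.cand t i a - p.tau i + p.W i),
          (om j).lab = i + 2 ∧ (om j).sb = true then (0 : ℝ) else 1) := by
        split_ifs <;> norm_num
      linarith
    rw [if_pos g4, if_pos g5]
    push_cast
    simp only [add_zero]
    by_cases g3 : ∀ j ∈ Finset.Ico (p.cand t i a - p.tau i) (p.cand t i a + p.W i),
        ((om j).lab = 1 → p.lv (om j) ≤ i) ∧ (2 ≤ (om j).lab → (om j).lab ≤ i + 2)
    · by_cases g6 : p.nse om i (p.cand t i a - p.tau i) (p.cand t i a + p.W i) ≤ p.R * p.rho i
      · have g7 : ¬ p.nring om i (p.cand t i a - p.tau i) (p.cand t i a + p.W i) ≤ p.q := by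
          intro g7
          exact hng ⟨by omega, e1, g3, g4, g5, g6, g7⟩
        have h7 : (1 : ℝ) ≤ (∑ j ∈ Fw p t i a, φ3 j) / p.q := by
          rw [one_le_div hq]
          have h8 : ∑ j ∈ Fw p t i a, φ3 j =
              (p.nring om i (p.cand t i a - p.tau i) (p.cand t i a + p.W i) : ℝ) := by
            rw [Par.nring, Finset.sum_boole]
            rfl
          rw [h8]
          exact_mod_cast (not_le.1 g7).le
        linarith
      · have h7 : (1 : ℝ) ≤ (∑ j ∈ Fw p t i a, φ2 j) / p.R := by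
          rw [one_le_div hR]
          have h8 : ∑ j ∈ Fw p t i a, φ2 j =
              p.nse om i (p.cand t i a - p.tau i) (p.cand t i a + p.W i) / p.rho i := by
            rw [Par.nse, Finset.sum_div]
            refine Finset.sum_congr rfl fun j _ => ?_
            simp only [φ2]
            split_ifs
            · rfl
            · rw [zero_div]
          rw [h8, le_div_iff₀ hrho]
          exact (not_le.1 g6).le
        linarith
    · push Not at g3
      obtain ⟨j, hj, hj3⟩ := g3
      by_cases hx : (om j).lab = 1 ∧ i < p.lv (om j) ∨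
          2 ≤ (om j).lab ∧ i + p.b < p.lv (om j) - 1
      · have h7 : (1 : ℝ) ≤ ∑ j ∈ Fw p t i a, φ1 j := by
          refine le_trans (le_of_eq ?_) (Finset.single_le_sum (fun j _ => h1 j) hj)
          simp only [φ1]
          rw [if_pos hx]
        linarith
      · have h7 : X a = 1 := by
          simp only [X]
          rw [if_pos]
          refine ⟨j, hj, ?_⟩
          have hlab : 2 ≤ (om j).lab ∧ i + 2 < (om j).lab := by
            by_cases h8 : (om j).lab = 1 → p.lv (om j) ≤ i
            · exact hj3 h8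
            · push Not at h8
              exact absurd (Or.inl h8) hx
          refine ⟨hlab.1, ?_⟩
          have hlv : p.lv (om j) = (om j).lab - 1 := by
            rw [Par.lv, if_neg (by omega), if_neg (by omega)]
          have hval := (hv j).2.1 hlab.1
          have h9 : ¬ (om j).lab - 2 < i + p.b := by
            intro h9
            obtain ⟨n1, n2⟩ := no_mid_ring p hp i ((om j).lab - 2) (p.cand t i a) j (by omega) h9
              e1 (by omega) hj
            rcases hval with h | h
            · exact n1 h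
            · exact n2 h
          have h10 : ¬ (i + p.b < p.lv (om j) - 1) := fun h => hx (Or.inr ⟨hlab.1, h⟩)
          rw [hlv] at h10
          omega
        linarith
  have tot := Finset.sum_le_sum key
  rw [Finset.sum_const, Nat.card_Icc] at tot
  simp only [Finset.sum_add_distrib, ← Finset.sum_div] at tot
  have t1 := sum_Fw p hp t i ht φ1 h1
  have t2 := sum_Fw p hp t i ht φ2 h2
  have t3 := sum_Fw p hp t i ht φ3 h3
  have c1 : ∑ j ∈ Finset.range t, (if p.mst t j ≤ i then φ1 j else 0) =
      (((Finset.range t).filter fun j => p.mst t j ≤ i ∧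
        ((om j).lab = 1 ∧ i < p.lv (om j) ∨ 2 ≤ (om j).lab ∧ i + p.b < p.lv (om j) - 1)).card : ℝ)
      := by
    rw [Finset.natCast_card_filter]
    refine Finset.sum_congr rfl fun j _ => ?_
    simp only [φ1, ite_and]
  have c2 : ∑ j ∈ Finset.range t, (if p.mst t j ≤ i then φ2 j else 0) =
      ∑ j ∈ Finset.range t, if p.mst t j ≤ i ∧ p.lv (om j) ≤ i then
        p.sz (om j) / p.rho i else 0 := by
    refine Finset.sum_congr rfl fun j _ => ?_
    simp only [φ2, ite_and]
  have c3 : ∑ j ∈ Finset.range t, (if p.mst t j ≤ i then φ3 j else 0) =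
      (((Finset.range t).filter fun j => p.mst t j ≤ i ∧ (om j).lab = i + 2).card : ℝ) := by
    rw [Finset.natCast_card_filter]
    refine Finset.sum_congr rfl fun j _ => ?_
    simp only [φ3, ite_and]
  rw [c1] at t1
  rw [c2] at t2
  rw [c3] at t3
  have u2 := div_le_div_of_nonneg_right t2 hR.le
  have u3 := div_le_div_of_nonneg_right t3 hq.le
  norm_num at tot
  norm_num
  linarith

end KDB.I.L3
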